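import Mathlib
import Pool.Agent.N122.Chord

/-!
# Chords of a smooth cubic hypersurface preserve the parity of the degree

Let `X = (F = 0)` be a smooth cubic hypersurface of dimension `n` (any one, not only a very general
one), let `M` be a field which contains `ℂ` and let `x` be a generic point of `X` over `M` such that
the degree of `M` over the function field of `X` is odd: for `M` the field of rational functions of a
rational variety, this is a dominant rational map of odd degree from this variety to `X`, for example
a birational parametrization. Let `c` be another point of `X` over `M` whose coordinates satisfy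

  `dim span (c_i) + dim span (c_i c_j) ≤ n + 1`  (spans over `ℂ`),

for example a point of a `k`-dimensional linear subspace of `X`, if `k + (k+1)(k+2)/2 ≤ n` (a point, if
`n ≥ 1`, a point of a line, if `n ≥ 4`, of a plane, if `n ≥ 8`), a point of the section of `X` by a
linear subspace of dimension `e`, if `e + (e+1)(e+2)/2 ≤ n`, or a point of a rational curve of degree
`d` in `X` (or, over any field, a point whose coordinates are polynomials of degree at most `d` in one
element of `M`), if `n ≥ 3 d + 1`. Then the third point in which the line through `x` and `c` meets
`X` is again a generic point such that the degree of `M` over the function field is odd. So every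
rational map `c` from a rational variety to such a curve or linear subspace gives, by composition,
again a dominant rational map of odd degree from every one.

Consequences: no dominant rational map of odd degree has the form `t² α + t β + γ` with `α`, `β`, `γ`
independent of the variable `t` and with `α` as above (a family of conics in `X` which have a point
as above); and a point of `X` over `M` which has the same image under the projection from a linear
subspace `W` of `X` as above is of odd degree at the same time as `x`.

Idea of the proof. By the theorems of the starting files (projects LI, PD and E3) the line is not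
tangent to `X` at `c`, and if the third point is not of odd degree then the point `z = x + τ c` with
an indeterminate `τ` is generic in the projective space and `M(τ)` has odd degree over the field of
rational functions of the projective space. The bound for the spans gives a point `η` of the
projective space over `ℂ`, not in the span of `c`, such that `F (c + τ η) = τ (b(c) + b₀ τ)²` with a
linear form `b` and `b₀ ∈ ℂ`. The blow-up of `η` gives a discrete valuation of `M(τ)` of odd
ramification index and odd residue degree over the blow-up, and the point `x = z - τ c` of `X`
reduces over its residue field to a relation between generic coordinates and a square, which is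
impossible because `X` is smooth: a polar quadric of `η` and the projection of `X` from `η` would
degenerate.
-/

set_option autoImplicit false

namespace Pool.Agent.Results.MP_2619d0_ag.ChordParity

open MvPolynomial

/-- `F` is the equation of a smooth cubic hypersurface of dimension `n`: a cubic form in `n + 2`
variables whose partial derivatives have no common zero besides the origin -/
def SmoothCubic {n : ℕ} (F : MvPolynomial (Fin (n + 2)) ℂ) : Prop :=
  F.IsHomogeneous 3 ∧ ∀ z : Fin (n + 2) → ℂ, (∀ i, eval z (pderiv i F) = 0) → z = 0

/-- `x` is a generic point of the hypersurface `F = 0` with coordinates in an extension field `M` of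
the complex numbers: `F` vanishes at `x`, and every form vanishing at `x` is divisible by `F` -/
def GenericPoint {n : ℕ} {M : Type} [Field M] [Algebra ℂ M] (F : MvPolynomial (Fin (n + 2)) ℂ)
    (x : Fin (n + 2) → M) : Prop :=
  aeval x F = 0 ∧ ∀ (e : ℕ) (H : MvPolynomial (Fin (n + 2)) ℂ), H.IsHomogeneous e →
    aeval x H = 0 → F ∣ H

/-- the field generated by the ratios of the coordinates of `x`; for a generic point of `X` it is
the function field of `X` -/
noncomputable def functionField {n : ℕ} {M : Type} [Field M] [Algebra ℂ M] (x : Fin (n + 2) → M) :
    IntermediateField ℂ M :=
  IntermediateField.adjoin ℂ {z | ∃ i j, z = x i / x j}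

/-- `x` is a generic point of the hypersurface `F = 0`, and the field `M` has odd degree over the
function field of the hypersurface -/
def OddPoint {n : ℕ} {M : Type} [Field M] [Algebra ℂ M] (F : MvPolynomial (Fin (n + 2)) ℂ)
    (x : Fin (n + 2) → M) : Prop :=
  GenericPoint F x ∧ Odd (Module.finrank (functionField x) M)

/-- the dimension of the complex vector space spanned by the coordinates of `c` plus the dimension
of the complex vector space spanned by the products of two coordinates of `c` -/
noncomputable def size {n : ℕ} {M : Type} [Field M] [Algebra ℂ M] (c : Fin (n + 2) → M) : ℕ :=
  Module.finrank ℂ (Submodule.span ℂ (Set.range c)) +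
    Module.finrank ℂ (Submodule.span ℂ (Set.range fun p : Fin (n + 2) × Fin (n + 2) =>
      c p.1 * c p.2))

/-- the linear span of the vectors `A 0, …, A (r - 1)` is contained in the hypersurface `F = 0` -/
def SpanInside {n r : ℕ} (F : MvPolynomial (Fin (n + 2)) ℂ) (A : Fin r → Fin (n + 2) → ℂ) : Prop :=
  ∀ a : Fin r → ℂ, eval (fun i => ∑ l, a l * A l i) F = 0

/-- Let `X = (F = 0)` be a smooth cubic hypersurface of dimension `n`.

(1) Let `x` be a generic point of `X` over `M` such that `M` has odd degree over the function field of
`X`, and let `c` be a point of `X` over `M` of size at most `n + 1`. Then every point `s x + t c`,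
`s ≠ 0`, of the line through `x` and `c` which lies on `X` is again a generic point of `X` such that
`M` has odd degree over its function field.

(2) Let `L` be a subfield of `M`, `t ∈ M` transcendental over `L`, `α`, `β`, `γ` vectors over `L` and
`α` of size at most `n + 1`. Then `t² α + t β + γ` is not a generic point of `X` of odd degree.

(3) Let `W` be a linear subspace of `X`, spanned by `A 0, …, A (r - 1)`, with
`r + r (r + 1) / 2 ≤ n + 1`, and let `x` and `y` be points of `X` over `M` with the same image under
the projection from `W`. Then `x` and `y` are generic points of odd degree at the same time. -/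
theorem result (n : ℕ) (F : MvPolynomial (Fin (n + 2)) ℂ) (hF : SmoothCubic F)
    (M : Type) [Field M] [Algebra ℂ M] :
    (∀ x c : Fin (n + 2) → M, OddPoint F x → c ≠ 0 → aeval c F = 0 → size c ≤ n + 1 →
      ∀ s t : M, s ≠ 0 → aeval (fun i => s * x i + t * c i) F = 0 →
        OddPoint F (fun i => s * x i + t * c i)) ∧
    (∀ (L : IntermediateField ℂ M) (t : M), Transcendental L t →
      ∀ α β γ : Fin (n + 2) → M, (∀ i, α i ∈ L) → (∀ i, β i ∈ L) → (∀ i, γ i ∈ L) →
        size α ≤ n + 1 → ¬ OddPoint F (fun i => t ^ 2 * α i + t * β i + γ i)) ∧
    (∀ (r : ℕ) (A : Fin r → Fin (n + 2) → ℂ), SpanInside F A → r + r * (r + 1) / 2 ≤ n + 1 →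
      ∀ x y : Fin (n + 2) → M, aeval y F = 0 → OddPoint F x →
        (∃ (s : M) (w : Fin r → M), s ≠ 0 ∧
          ∀ i, y i = s * x i + ∑ l, w l * algebraMap ℂ M (A l i)) → OddPoint F y) := by
  refine ⟨fun x c hx hc hcF hsz s t hs hst => ?_, fun L t ht α β γ hα hβ hγ hsz hx => ?_,
    fun r A hA hr x y hyF hx => ?_⟩
  · exact Pool.Agent.N122.chord hF.1 hF.2 x c hx.1 hx.2 hc hcF (Nat.lt_succ_of_le hsz) s t hs hst
  · exact (Nat.not_even_iff_odd.2 hx.2) (Pool.Agent.N122.no_conics hF.1 hF.2 L t ht α β γ hα hβ hγ
      (Nat.lt_succ_of_le hsz) hx.1)
  · exact Pool.Agent.N122.fibre hF.1 hF.2 A hA hr x y hyF hx.1 hx.2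

end Pool.Agent.Results.MP_2619d0_ag.ChordParity
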