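import Mathlib
import Pool.Agent.N122.Par2

/-!
# Chords of a smooth cubic hypersurface through the points of a small subvariety

Let `X = (F = 0)` be a smooth cubic hypersurface of dimension `n`, let `M` be a field which contains
`ℂ` and let `x` be a generic point of `X` over `M` such that the degree of `M` over the function
field of `X` is odd: for `M` the field of rational functions of a rational variety, this is a
dominant rational map of odd degree from this variety to `X`, for example a birational
parametrization. Let `c` be another point of `X` over `M` such that the transcendence degree of the
field generated by the ratios of its coordinates is at most `m`: `c` is a rational map to a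
subvariety of `X` of dimension at most `m`, arbitrary otherwise. If
`n ≥ 1, 4, 8, 14, 20, 36, 68, …` for `m = 0, 1, 2, 3, 4, 5, 6, …` (that is `n ≥ 2 ^ m + 4` for
`m ≥ 5`), then the third point in which the line through `x` and `c` meets `X` is again a generic
point such that the degree of `M` over the function field is odd.

So the set of the odd parametrizations of `X` is stable under all these chord constructions. As a
consequence a dominant rational map of odd degree from a rational variety to `X` can not be
`t² α + t β + γ` with `α`, `β`, `γ` independent of the variable `t` and `α` in a subvariety of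
dimension at most `m`. Some bound is necessary: if `X` contains a linear subspace `W` of dimension
`m` such that the projection from `W` has a rational section, for example if `n = 2 m` and `X`
contains two disjoint linear subspaces of dimension `m`, then there are points `c` of `W` over the
function field of `X` for which the third point lies on the section, a proper subvariety.

Idea of the proof. By theorems of the starting files (projects LI, PD and E3), if the third point is
not of odd degree then the point `z = x + τ c` is generic in the projective space and `M(τ)` has odd
degree over the field of rational functions of the projective space. More generally we show, by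
induction on `m`: if `z` is a generic point of the projective space over `E` with odd residue degree,
and `Λ` is a linear subspace of `X`, of dimension `P - 1`, which is defined over a subfield `K` of `E`
of transcendence degree `≤ m`, then the span of `z` and `Λ` meets `X` only in `Λ`. By Lang's theorem
(in a version with weights) there is a vector `v` over `K` outside of `Λ` such that the restriction
of `F` to `v + Λ` is the square of a linear function. Write `ρ z = v + s u` with a new indeterminate
`s` and compare the fundamental identities for the places of `E(s)` at `s = 0` and at `s = ∞` over
the generic point `u`: there is a place `w` of odd ramification and residue degree with `w(s) > 0` or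
not trivial on `K`. At such a place either the square leads to a contradiction of parity, or there is
a point over the residue field which contradicts the statement for `m - 1` and the reduction of `Λ`
or of the span of `v` and `Λ`.
-/

set_option autoImplicit false

namespace Pool.Agent.Results.MP_2619d0_ag.ChordsThroughSubvarieties

open MvPolynomial

/-- `F` is the equation of a smooth cubic hypersurface of dimension `n`: a cubic form in `n + 2`
variables whose partial derivatives have no common zero besides the origin -/
def SmoothCubic {n : ℕ} (F : MvPolynomial (Fin (n + 2)) ℂ) : Prop :=
  F.IsHomogeneous 3 ∧ ∀ z : Fin (n + 2) → ℂ, (∀ i, eval z (pderiv i F) = 0) → z = 0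

/-- `x` is a generic point of the hypersurface `F = 0` with coordinates in an extension field `M` of
the complex numbers: `F` vanishes at `x`, and every form vanishing at `x` is divisible by `F` -/
def GenericPoint {n : ℕ} {M : Type} [Field M] [Algebra ℂ M] (F : MvPolynomial (Fin (n + 2)) ℂ)
    (x : Fin (n + 2) → M) : Prop :=
  aeval x F = 0 ∧ ∀ (e : ℕ) (H : MvPolynomial (Fin (n + 2)) ℂ), H.IsHomogeneous e →
    aeval x H = 0 → F ∣ H

/-- the field generated by the ratios of the coordinates of `x`; for a generic point of `X` it is
the function field of `X`, in general it is the function field of the closure of the point `x` -/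
noncomputable def functionField {n : ℕ} {M : Type} [Field M] [Algebra ℂ M] (x : Fin (n + 2) → M) :
    IntermediateField ℂ M :=
  IntermediateField.adjoin ℂ {z | ∃ i j, z = x i / x j}

/-- `x` is a generic point of the hypersurface `F = 0`, and the field `M` has odd degree over the
function field of the hypersurface -/
def OddPoint {n : ℕ} {M : Type} [Field M] [Algebra ℂ M] (F : MvPolynomial (Fin (n + 2)) ℂ)
    (x : Fin (n + 2) → M) : Prop :=
  GenericPoint F x ∧ Odd (Module.finrank (functionField x) M)

/-- the closure of the point `c` has dimension at most `m`: the transcendence degree over the complex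
numbers of the field generated by the ratios of its coordinates is at most `m` -/
def DimLe {n : ℕ} {M : Type} [Field M] [Algebra ℂ M] (m : ℕ) (c : Fin (n + 2) → M) : Prop :=
  Algebra.trdeg ℂ (functionField c) ≤ m

/-- the bound for the dimension of the hypersurface: `1, 4, 8, 14, 20, 36, 68, …` -/
def bound : ℕ → ℕ
  | 0 => 1
  | 1 => 4
  | 2 => 8
  | 3 => 14
  | 4 => 20
  | m + 5 => 2 ^ (m + 5) + 4

theorem bound_eq (m : ℕ) : bound m = Pool.Agent.N122.dimBound m := by
  match m with
  | 0 => rfl
  | 1 => rfl
  | 2 => rfl
  | 3 => rfl
  | 4 => rfl
  | m + 5 => rfl

theorem dep {n m : ℕ} {M : Type} [Field M] [Algebra ℂ M] {c : Fin (n + 2) → M} (h : DimLe m c) :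
    ∀ y : Fin (m + 1) → M, (∀ i, y i ∈ Pool.Agent.TH314.PD.ratioField c) →
      ¬ AlgebraicIndependent ℂ y := by
  intro y hy hAI
  have h1 : AlgebraicIndependent ℂ (fun i => ⟨y i, hy i⟩ : Fin (m + 1) → functionField c) := by
    refine AlgebraicIndependent.of_comp (functionField c).val ?_
    exact hAI
  have h3 := h1.cardinalMk_le_trdeg
  have h4 := h3.trans h
  rw [Cardinal.mk_fin] at h4
  have h5 : m + 1 ≤ m := by exact_mod_cast h4
  omega

/-- Let `X = (F = 0)` be a smooth cubic hypersurface of dimension `n ≥ bound m`.

(1) Let `x` be a generic point of `X` over `M` such that `M` has odd degree over the function field of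
`X`, and let `c` be a point of `X` over `M` whose closure has dimension at most `m`. Then every point
`s x + t c`, `s ≠ 0`, of the line through `x` and `c` which lies on `X` is again a generic point of
`X` such that `M` has odd degree over its function field.

(2) Let `L` be a subfield of `M`, `t ∈ M` transcendental over `L`, `α`, `β`, `γ` vectors over `L` and
the closure of `α` of dimension at most `m`. Then `t² α + t β + γ` is not a generic point of `X` of
odd degree. -/
theorem result (n m : ℕ) (hn : bound m ≤ n) (F : MvPolynomial (Fin (n + 2)) ℂ)
    (hF : SmoothCubic F) (M : Type) [Field M] [Algebra ℂ M] :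
    (∀ x c : Fin (n + 2) → M, OddPoint F x → c ≠ 0 → aeval c F = 0 → DimLe m c →
      ∀ s t : M, s ≠ 0 → aeval (fun i => s * x i + t * c i) F = 0 →
        OddPoint F (fun i => s * x i + t * c i)) ∧
    (∀ (L : IntermediateField ℂ M) (t : M), Transcendental L t →
      ∀ α β γ : Fin (n + 2) → M, (∀ i, α i ∈ L) → (∀ i, β i ∈ L) → (∀ i, γ i ∈ L) →
        DimLe m α → ¬ OddPoint F (fun i => t ^ 2 * α i + t * β i + γ i)) := by
  rw [bound_eq] at hn
  have h1 := Pool.Agent.N122.dimBound_lt hn
  have h2 := Pool.Agent.N122.dimBound_gd hn
  refine ⟨fun x c hx hc hcF hcv s t hs hst => ?_, fun L t ht α β γ hα hβ hγ hcv hx => ?_⟩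
  · exact Pool.Agent.N122.chordm h1 h2 hF.1 hF.2 x c hx.1 hx.2 hc hcF (dep hcv) s t hs hst
  · exact (Nat.not_even_iff_odd.2 hx.2) (Pool.Agent.N122.conicsm h1 h2 hF.1 hF.2 L t ht α β γ hα hβ
      hγ (dep hcv) hx.1)

end Pool.Agent.Results.MP_2619d0_ag.ChordsThroughSubvarieties
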