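import Mathlib
import Pool.Agent.N122.Base

/-!
# Rational maps of odd degree to a smooth cubic hypersurface given by cubic forms

Let `X = (F = 0)` be a smooth cubic hypersurface of dimension `n ≥ 2` (any one, not only a very
general one), and let `H = (H_0, …, H_(n+1))` be cubic forms in `n + 1` variables which give a
dominant rational map from the projective space of dimension `n` to `X` whose degree is odd, for
example a birational parametrization. (By homogenization this includes the dominant maps of odd
degree given by `n + 2` polynomials of degree at most three in `n` variables.) Then: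

* the forms `H` have a common zero `b ≠ 0`;
* for **every** common zero `b ≠ 0` the image `W_b` of the derivative of `H` at `b` is a linear
  subspace of `X` such that the projection from `W_b`, a fibration in quadrics, has a rational
  section; its dimension `k` satisfies `n < k + (k + 1)(k + 2)/2` (so the derivative has rank at
  least three at all base points if `n ≥ 4`, and at least four if `n ≥ 8`), `W_b` is a maximal linear
  subspace of `X` and there is no linear space of dimension `k + 1` which meets `X` in `W_b` and a
  linear space of multiplicity two;
* `X` is rational.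

So a smooth cubic hypersurface which has a dominant rational map of odd degree from the projective
space of the same dimension by cubic forms is rational, and for `n ≥ 4` there is no such map if `X`
has no maximal linear subspace of dimension `k ≥ 2`, `n < k + (k + 1)(k + 2)/2`, whose projection has
a rational section. For `n = 2` this is the well-known geometry of the cubic surface: `H` has six
base points `b`, and the `W_b` are the six exceptional lines. For very general `X` of dimension
`n ≥ 3` there are no such maps by the starting result `CubicMapsEvenDegree`; for `n = 4` there are none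
for all smooth `X` (`MP_6fa476_ag.NoCubicParametrization`).

Idea of the proof. The class of the general hyperplane section bounds the degree of the map; if there
were no base point the degree would be too large (starting files, projects PD and E3). The lines
through a base point `b` are mapped to conics which start in `W_b`; a family of conics of odd degree
which start in a linear subspace `W` of `X` gives a rational section of the projection from `W`, and
such a section does not exist if `W` is small or special (`SectionCriterion`, helper files `N122`).
-/

set_option autoImplicit false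

namespace Pool.Agent.Results.MP_2619d0_ag.CubicMapsBasePoints

open MvPolynomial

/-- `F` is the equation of a smooth cubic hypersurface of dimension `n`: a cubic form in `n + 2`
variables whose partial derivatives have no common zero besides the origin -/
def SmoothCubic {n : ℕ} (F : MvPolynomial (Fin (n + 2)) ℂ) : Prop :=
  F.IsHomogeneous 3 ∧ ∀ z : Fin (n + 2) → ℂ, (∀ i, eval z (pderiv i F) = 0) → z = 0

/-- `x` is a generic point of the hypersurface `F = 0` with coordinates in an extension field `M` of
the complex numbers: `F` vanishes at `x`, and every form vanishing at `x` is divisible by `F` -/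
def GenericPoint {n : ℕ} {M : Type} [Field M] [Algebra ℂ M] (F : MvPolynomial (Fin (n + 2)) ℂ)
    (x : Fin (n + 2) → M) : Prop :=
  aeval x F = 0 ∧ ∀ (e : ℕ) (H : MvPolynomial (Fin (n + 2)) ℂ), H.IsHomogeneous e →
    aeval x H = 0 → F ∣ H

/-- the field generated by the ratios of the coordinates of `x`; for a generic point of `X` it is
the function field of `X` -/
noncomputable def functionField {n : ℕ} {M : Type} [Field M] [Algebra ℂ M] (x : Fin (n + 2) → M) :
    IntermediateField ℂ M :=
  IntermediateField.adjoin ℂ {z | ∃ i j, z = x i / x j}

/-- the field of rational functions in `n` variables -/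
abbrev Rat (n : ℕ) : Type := FractionRing (MvPolynomial (Fin n) ℂ)

/-- the values of forms in `n + 1` variables at the generic point `(1, t_1, …, t_n)` of the
projective space -/
noncomputable def valuesAt {n : ℕ} (H : Fin (n + 2) → MvPolynomial (Fin (n + 1)) ℂ)
    (i : Fin (n + 2)) : Rat n :=
  algebraMap (MvPolynomial (Fin n) ℂ) (Rat n)
    (aeval (Fin.cons 1 X : Fin (n + 1) → MvPolynomial (Fin n) ℂ) (H i))

/-- the cubic forms `H` give a dominant rational map of odd degree from the projective space of
dimension `n` to the hypersurface `F = 0` -/
def OddCubicMap {n : ℕ} (F : MvPolynomial (Fin (n + 2)) ℂ)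
    (H : Fin (n + 2) → MvPolynomial (Fin (n + 1)) ℂ) : Prop :=
  (∀ i, (H i).IsHomogeneous 3) ∧ GenericPoint F (valuesAt H) ∧
    Odd (Module.finrank (functionField (valuesAt H)) (Rat n))

/-- the linear span of the vectors `A 0, …, A (r - 1)` is contained in the hypersurface `F = 0` -/
def SpanInside {n r : ℕ} (F : MvPolynomial (Fin (n + 2)) ℂ) (A : Fin r → Fin (n + 2) → ℂ) : Prop :=
  ∀ a : Fin r → ℂ, eval (fun i => ∑ l, a l * A l i) F = 0

/-- the point of the linear span of the vectors `A l` with the coefficients `w l` -/
noncomputable def point {n r : ℕ} {M : Type} [Field M] [Algebra ℂ M] (A : Fin r → Fin (n + 2) → ℂ)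
    (w : Fin r → M) (i : Fin (n + 2)) : M :=
  ∑ l, w l * algebraMap ℂ M (A l i)

/-- the projection from the span of the vectors `A l` has a rational section: there are rational
functions `w l` on the projective space of dimension `n + 1` such that the point
`z + ∑ w_l(z) A_l`, `z = (1, z_1, …, z_(n+1))`, lies on `F = 0` (a rational map from the projective
space to the hypersurface which is compatible with the projection) -/
def HasSection {n r : ℕ} (F : MvPolynomial (Fin (n + 2)) ℂ) (A : Fin r → Fin (n + 2) → ℂ) : Prop :=
  ∃ w : Fin r → Rat (n + 1), aeval (fun i =>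
    algebraMap (MvPolynomial (Fin (n + 1)) ℂ) (Rat (n + 1))
      ((Fin.cons 1 X : Fin (n + 2) → MvPolynomial (Fin (n + 1)) ℂ) i) + point A w i) F = 0

/-- the hypersurface `F = 0` of dimension `n` is rational: it has a birational parametrization by
`n + 2` polynomials in `n` variables -/
def IsRational {n : ℕ} (F : MvPolynomial (Fin (n + 2)) ℂ) : Prop :=
  ∃ G : Fin (n + 2) → MvPolynomial (Fin n) ℂ,
    GenericPoint F (fun i => algebraMap (MvPolynomial (Fin n) ℂ) (Rat n) (G i)) ∧
    functionField (fun i => algebraMap (MvPolynomial (Fin n) ℂ) (Rat n) (G i)) = ⊤

/-- the vectors whose span is the image of the derivative of `H` at `b` -/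
noncomputable def derivative {n : ℕ} (H : Fin (n + 2) → MvPolynomial (Fin (n + 1)) ℂ)
    (b : Fin (n + 1) → ℂ) (l : Fin (n + 1)) (i : Fin (n + 2)) : ℂ :=
  eval b (pderiv l (H i))

/-- Let `X = (F = 0)` be a smooth cubic hypersurface of dimension `n ≥ 2` and let `H` be cubic forms
which give a dominant rational map of odd degree from the projective space of dimension `n` to `X`.

(1) `X` is rational.

(2) The forms `H` have a common zero `b ≠ 0`.

(3) For every common zero `b ≠ 0` of `H` the image `W` of the derivative of `H` at `b` is contained
in `X`, the projection from `W` has a rational section, `n + 1 < r + r (r + 1) / 2` for the rank `r`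
of the derivative, and there are no `η` outside of `W`, linear form `β` and number `c` such that
`F (w + t η) = t (β(w) + c t)²` for all points `w` of `W` and all `t`; in particular (`β = 0`,
`c = 0`) `W` is a maximal linear subspace of `X`. -/
theorem result (n : ℕ) (hn : 2 ≤ n) (F : MvPolynomial (Fin (n + 2)) ℂ) (hF : SmoothCubic F)
    (H : Fin (n + 2) → MvPolynomial (Fin (n + 1)) ℂ) (hH : OddCubicMap F H) :
    IsRational F ∧
    (∃ b : Fin (n + 1) → ℂ, b ≠ 0 ∧ ∀ i, eval b (H i) = 0) ∧
    ∀ b : Fin (n + 1) → ℂ, b ≠ 0 → (∀ i, eval b (H i) = 0) →
      SpanInside F (derivative H b) ∧ HasSection F (derivative H b) ∧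
      (∀ r : ℕ, Module.finrank ℂ (Submodule.span ℂ (Set.range (derivative H b))) = r →
        n + 1 < r + r * (r + 1) / 2) ∧
      ¬ ∃ (η β : Fin (n + 2) → ℂ) (c : ℂ), η ∉ Submodule.span ℂ (Set.range (derivative H b)) ∧
        ∀ (a : Fin (n + 1) → ℂ) (t : ℂ), eval (fun i => point (derivative H b) a i + t * η i) F =
          t * (∑ i, β i * point (derivative H b) a i + c * t) ^ 2 := by
  obtain ⟨hH3, hG, hodd⟩ := hH
  obtain ⟨b, hb, hbH⟩ := Pool.Agent.N122.base_exists hn hF.1 hF.2 H hH3 hG
  refine ⟨?_, ⟨b, hb, hbH⟩, fun b hb hbH => ?_⟩
  · obtain ⟨h1, h2⟩ := Pool.Agent.N122.base_sec (by omega) hF.1 hF.2 H hH3 hG hodd b hb hbH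
    exact Pool.Agent.N122.rational_of_sec (by omega) hF.1 hF.2 _ h1 h2
  · obtain ⟨h1, h2⟩ := Pool.Agent.N122.base_sec (by omega) hF.1 hF.2 H hH3 hG hodd b hb hbH
    refine ⟨h1, h2, fun r hr => Pool.Agent.N122.sec_rank hF.1 hF.2 _ h1 h2 r hr, ?_⟩
    rintro ⟨η, β, c, hη, hsp⟩
    exact Pool.Agent.N122.no_sec' hF.1 hF.2 _ h1 η β c hη hsp h2

end Pool.Agent.Results.MP_2619d0_ag.CubicMapsBasePoints
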