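import Mathlib
import Pool.Agent.N122.Par

/-!
# Linear subspaces of a smooth cubic hypersurface: parity, families of curves, rational sections

Let `X = (F = 0)` be a smooth cubic hypersurface of dimension `n ≥ 1` (any one, not only a very
general one) and `W` a linear subspace of `X`. The projection from `W` is a fibration of `X` in
quadrics. Let `x` be a generic point of `X` over a field `M` of odd degree over the function field of
`X`, for example a dominant rational map of odd degree from a rational variety to `X`.

If one of the following holds then the projection from `W` has a rational section: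
* `X` has a point over `M` which is not of this kind and has the same image as `x` under the
  projection from `W` (the parity of the degree is not constant in the fibres);
* `x = t² α + t β + γ` is a family of conics in `X` which start in `W` (`α` in `W`);
* `x` is a family of rational curves in `X` which the projection from `W` maps to lines or points
  (curves which meet `W` in all but at most one of their intersection points with a hyperplane through
  `W`, for example conics which meet `W`, twisted cubics which meet `W` twice, ...).

If the projection from `W` has a rational section then `X` is rational, the dimension `k` of `W`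
satisfies `n < k + (k + 1) (k + 2) / 2` (so `W` is not a point or, if `n ≥ 4`, a line, or, if
`n ≥ 8`, a plane), `W` is a maximal linear subspace of `X`, and there is no linear space of dimension
`k + 1` whose intersection with `X` consists of `W` and a linear space of multiplicity two.

So for all other pairs `X ⊃ W` the parity of the degree of a rational parametrization of `X` is
determined by its composition with the projection from `W`, and `X` has no family of rational curves
as above such that an odd number of the curves passes through the general point of `X`.

Idea of the proof. If the parity is not constant then (starting files, project E3) the point of `X`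
and a point of `W` span a line whose generic point is a generic point of the projective space over a
field of odd degree over its field of ratios; the theorem of Springer gives a rational section. For
the conics and families of curves one moves `x` in its fibre to a family of lines, which never has
odd degree (starting files, project LI). If there is a section, then the generic point `z` of the
projective space and a point `c` of `W` over the field of ratios span a line whose point `z + c` lies
on `X`. A dimension count gives `η` outside of `W` with `F (c + t η) = t (β(c) + b₀ t)²` for all `c`
in `W`. The valuation of the blow-up of `η` has then a contradiction: `z + c` reduces to a double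
point of the restriction of `F`, and the next term shows that a quadratic form without base points in
generic coordinates has a zero, of odd degree.
-/

set_option autoImplicit false

namespace Pool.Agent.Results.MP_2619d0_ag.SectionCriterion

open MvPolynomial

/-- `F` is the equation of a smooth cubic hypersurface of dimension `n`: a cubic form in `n + 2`
variables whose partial derivatives have no common zero besides the origin -/
def SmoothCubic {n : ℕ} (F : MvPolynomial (Fin (n + 2)) ℂ) : Prop :=
  F.IsHomogeneous 3 ∧ ∀ z : Fin (n + 2) → ℂ, (∀ i, eval z (pderiv i F) = 0) → z = 0

/-- `x` is a generic point of the hypersurface `F = 0` with coordinates in an extension field `M` of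
the complex numbers: `F` vanishes at `x`, and every form vanishing at `x` is divisible by `F` -/
def GenericPoint {n : ℕ} {M : Type} [Field M] [Algebra ℂ M] (F : MvPolynomial (Fin (n + 2)) ℂ)
    (x : Fin (n + 2) → M) : Prop :=
  aeval x F = 0 ∧ ∀ (e : ℕ) (H : MvPolynomial (Fin (n + 2)) ℂ), H.IsHomogeneous e →
    aeval x H = 0 → F ∣ H

/-- the field generated by the ratios of the coordinates of `x`; for a generic point of `X` it is
the function field of `X` -/
noncomputable def functionField {n : ℕ} {M : Type} [Field M] [Algebra ℂ M] (x : Fin (n + 2) → M) :
    IntermediateField ℂ M :=
  IntermediateField.adjoin ℂ {z | ∃ i j, z = x i / x j}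

/-- `x` is a generic point of the hypersurface `F = 0`, and the field `M` has odd degree over the
function field of the hypersurface -/
def OddPoint {n : ℕ} {M : Type} [Field M] [Algebra ℂ M] (F : MvPolynomial (Fin (n + 2)) ℂ)
    (x : Fin (n + 2) → M) : Prop :=
  GenericPoint F x ∧ Odd (Module.finrank (functionField x) M)

/-- the linear span of the vectors `A 0, …, A (r - 1)` is contained in the hypersurface `F = 0` -/
def SpanInside {n r : ℕ} (F : MvPolynomial (Fin (n + 2)) ℂ) (A : Fin r → Fin (n + 2) → ℂ) : Prop :=
  ∀ a : Fin r → ℂ, eval (fun i => ∑ l, a l * A l i) F = 0

/-- the point of the linear span of the vectors `A l` with the coefficients `w l` -/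
noncomputable def point {n r : ℕ} {M : Type} [Field M] [Algebra ℂ M] (A : Fin r → Fin (n + 2) → ℂ)
    (w : Fin r → M) (i : Fin (n + 2)) : M :=
  ∑ l, w l * algebraMap ℂ M (A l i)

/-- the field of rational functions in `n` variables -/
abbrev Rat (n : ℕ) : Type := FractionRing (MvPolynomial (Fin n) ℂ)

/-- the projection from the span of the vectors `A l` has a rational section: there are rational
functions `w l` on the projective space of dimension `n + 1` such that the point
`z + ∑ w_l(z) A_l`, `z = (1, z_1, …, z_(n+1))`, lies on `F = 0` (a rational map from the projective
space to the hypersurface which is compatible with the projection) -/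
def HasSection {n r : ℕ} (F : MvPolynomial (Fin (n + 2)) ℂ) (A : Fin r → Fin (n + 2) → ℂ) : Prop :=
  ∃ w : Fin r → Rat (n + 1), aeval (fun i =>
    algebraMap (MvPolynomial (Fin (n + 1)) ℂ) (Rat (n + 1))
      ((Fin.cons 1 X : Fin (n + 2) → MvPolynomial (Fin (n + 1)) ℂ) i) + point A w i) F = 0

/-- the hypersurface `F = 0` of dimension `n` is rational: it has a birational parametrization by
`n + 2` polynomials in `n` variables -/
def IsRational {n : ℕ} (F : MvPolynomial (Fin (n + 2)) ℂ) : Prop :=
  ∃ G : Fin (n + 2) → MvPolynomial (Fin n) ℂ,
    GenericPoint F (fun i => algebraMap (MvPolynomial (Fin n) ℂ) (Rat n) (G i)) ∧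
    functionField (fun i => algebraMap (MvPolynomial (Fin n) ℂ) (Rat n) (G i)) = ⊤

/-- Let `X = (F = 0)` be a smooth cubic hypersurface of dimension `n ≥ 1` and let `W` be a linear
subspace of `X`, spanned by `A 0, …, A (r - 1)`.

(1) If `x` is a generic point of `X` over `M`, `M` of odd degree over the function field of `X`, and
`y` is a point of `X` over `M` which has the same image under the projection from `W` and is not of
this kind, then the projection from `W` has a rational section.

(2) If `t` is transcendental over the subfield `L` of `M`, and if the point `t² α + t β + γ` with
`α`, `β`, `γ` over `L` and `α` in the span of `W` is a generic point of `X` of odd degree, then the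
projection from `W` has a rational section.

(3) If `M = L(t)` with `t` transcendental over `L`, and if a generic point of `X` over `M` of odd
degree has the form `s (t β + γ) + w` with `β`, `γ` over `L` and `w` in the span of `W`, then the
projection from `W` has a rational section.

(4) If the projection from `W` has a rational section then `X` is rational, `n + 1 < r + r (r + 1)/2`,
and there are no `η` outside of `W`, linear form `β` and number `b` such that
`F (w + t η) = t (β(w) + b t)²` for all points `w` of `W` and all `t`; in particular (`β = 0`,
`b = 0`) `W` is a maximal linear subspace of `X`. -/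
theorem result (n : ℕ) (hn : 1 ≤ n) (F : MvPolynomial (Fin (n + 2)) ℂ) (hF : SmoothCubic F) (r : ℕ)
    (A : Fin r → Fin (n + 2) → ℂ) (hA : SpanInside F A) :
    (∀ (M : Type) [Field M] [Algebra ℂ M] (x y : Fin (n + 2) → M), OddPoint F x →
      aeval y F = 0 → ¬ OddPoint F y → (∃ (s : M) (w : Fin r → M), s ≠ 0 ∧
        ∀ i, y i = s * x i + point A w i) → HasSection F A) ∧
    (∀ (M : Type) [Field M] [Algebra ℂ M] (L : IntermediateField ℂ M) (t : M), Transcendental L t →
      ∀ (w : Fin r → M) (β γ : Fin (n + 2) → M), (∀ l, w l ∈ L) → (∀ i, β i ∈ L) →
        (∀ i, γ i ∈ L) → OddPoint F (fun i => t ^ 2 * point A w i + t * β i + γ i) →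
          HasSection F A) ∧
    (∀ (M : Type) [Field M] [Algebra ℂ M] (L : IntermediateField ℂ M) (t : M), Transcendental L t →
      IntermediateField.adjoin L {t} = ⊤ →
      ∀ (s : M) (w : Fin r → M) (β γ : Fin (n + 2) → M), (∀ i, β i ∈ L) → (∀ i, γ i ∈ L) →
        OddPoint F (fun i => s * (t * β i + γ i) + point A w i) → HasSection F A) ∧
    (HasSection F A → IsRational F ∧ n + 1 < r + r * (r + 1) / 2 ∧
      ¬ ∃ (η β : Fin (n + 2) → ℂ) (b : ℂ), η ∉ Submodule.span ℂ (Set.range A) ∧
        ∀ (a : Fin r → ℂ) (t : ℂ), eval (fun i => point A a i + t * η i) F =
          t * (∑ i, β i * point A a i + b * t) ^ 2) := by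
  refine ⟨fun M _ _ x y hx hyF hy h => ?_, fun M _ _ L t ht w β γ hw hβ hγ h => ?_,
    fun M _ _ L t ht hM s w β γ hβ hγ h => ?_, fun h => ⟨?_, ?_, ?_⟩⟩
  · obtain ⟨s, w, hs, hyx⟩ := h
    exact (Pool.Agent.N122.sec_of_chord hF.1 hF.2 A hA x y hyF hx.1 hx.2 s w hs hyx).resolve_left hy
  · exact Pool.Agent.N122.sec_of_conics hF.1 hF.2 A hA L t ht w β γ hw hβ hγ h.1 h.2
  · exact Pool.Agent.N122.sec_of_lines hF.1 hF.2 A hA L t ht hM _ h.1 h.2 s w β γ hβ hγ
      fun i => rfl
  · exact Pool.Agent.N122.rational_of_sec hn hF.1 hF.2 A hA h
  · by_contra hcon
    exact Pool.Agent.N122.no_sec_small hF.1 hF.2 A hA (by omega) h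
  · rintro ⟨η, β, b, hη, hsp⟩
    exact Pool.Agent.N122.no_sec' hF.1 hF.2 A hA η β b hη hsp h

end Pool.Agent.Results.MP_2619d0_ag.SectionCriterion
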